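import Pool.Agent.H45.SF.GT
import Pool.Agent.H9.SF.Bas

/-!
# Pairs and intersections
-/

open Ordinal Cardinal Order Set
open scoped ZFSet

namespace SF.H69

open SF

variable {B : V} [IsCBA B] {N' N : V} {b : El B} {σ : V → V → El B}

/-- two arguments -/
def v2 (x x2 : V) : ℕ → V := fun i => if i = 0 then x else x2

open Classical in
theorem inf2 (x y x2 y2 : V) :
    (({(x, y), (x2, y2)} : Finset (V × V)).inf fun q => σ q.1 q.2) = σ x y ⊓ σ x2 y2 := by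
  rw [Finset.inf_insert, Finset.inf_singleton]

theorem tf2 (hTF : T_TF) (hN : NP N' N) (hm : BMap N' N b σ)
    (f : (V → Prop) → (ℕ → V) → V) (hf : Tm ZFm f) (x y x2 y2 : V)
    (h : σ x y ⊓ σ x2 y2 ≠ ⊥) :
    f (· ∈ N') (v2 x x2) ∈ N' ∧
      σ x y ⊓ σ x2 y2 ≤ σ (f (· ∈ N') (v2 x x2)) (f (· ∈ N) (v2 y y2)) := by
  classical
  have h1 := hTF f hf B N' N b σ hN hm {(x, y), (x2, y2)} (by rw [inf2]; exact h)
    (fun i => if i = 0 then (x, y) else (x2, y2)) (by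
      intro i
      split_ifs
      · simp
      · simp)
  rw [inf2] at h1
  have e1 : (fun i : ℕ => (if i = 0 then (x, y) else (x2, y2)).1) = v2 x x2 := by
    funext i
    unfold v2
    split_ifs <;> rfl
  have e2 : (fun i : ℕ => (if i = 0 then (x, y) else (x2, y2)).2) = v2 y y2 := by
    funext i
    unfold v2
    split_ifs <;> rfl
  rw [e1, e2] at h1
  exact h1

theorem tf1 (hTF : T_TF) (hN : NP N' N) (hm : BMap N' N b σ)
    (f : (V → Prop) → (ℕ → V) → V) (hf : Tm ZFm f) (x y : V) (h : σ x y ≠ ⊥) :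
    f (· ∈ N') (fun _ => x) ∈ N' ∧
      σ x y ≤ σ (f (· ∈ N') (fun _ => x)) (f (· ∈ N) (fun _ => y)) := by
  have h1 := hTF f hf B N' N b σ hN hm {(x, y)} (by rw [Finset.inf_singleton]; exact h)
    (fun _ => (x, y)) (fun i => by simp)
  rw [Finset.inf_singleton] at h1
  exact h1

theorem tr1 (hTR : T_TR) (hN : NP N' N) (hm : BMap N' N b σ) (x y : V) (h : σ x y ≠ ⊥) :
    IsPr x ↔ IsPr y :=
  hTR (fun _ v => IsPr (v 0)) (Dfb.isPr (Tm.var 0)) B N' N b σ hN hm {(x, y)}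
    (by rw [Finset.inf_singleton]; exact h) (fun _ => (x, y)) (fun i => by simp)

theorem ex2 (hm : BMap N' N b σ) (hb : b ≠ ⊥) {x x2 : V} (hx : x ∈ N') (hx2 : x2 ∈ N') :
    ∃ y y2, σ x y ⊓ σ x2 y2 ≠ ⊥ := by
  by_contra hcon
  push Not at hcon
  apply hb
  have h1 : (⨆ y, σ x y) ⊓ (⨆ y2, σ x2 y2) = b := by
    rw [hm.tot x hx, hm.tot x2 hx2, inf_idem]
  rw [← h1, iSup_inf_eq, iSup_eq_bot]
  intro y
  rw [inf_iSup_eq, iSup_eq_bot]
  intro y2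
  exact hcon y y2

theorem pair2 (hTF : T_TF) (hN : NP N' N) (hm : BMap N' N b σ) (x y x2 y2 : V)
    (h : σ (ZFSet.pair x x2) (ZFSet.pair y y2) ≠ ⊥) :
    σ (ZFSet.pair x x2) (ZFSet.pair y y2) ≤ σ x y ⊓ σ x2 y2 := by
  refine le_inf ?_ ?_
  · have h1 := (tf1 hTF hN hm (fun _ v => SF.fst (v 0)) (Tm.fst (Tm.var 0)) _ _ h).2
    dsimp only at h1
    rw [fst_pair, fst_pair] at h1
    exact h1
  · have h1 := (tf1 hTF hN hm (fun _ v => SF.snd (v 0)) (Tm.snd (Tm.var 0)) _ _ h).2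
    dsimp only at h1
    rw [snd_pair, snd_pair] at h1
    exact h1

theorem ap (hTR : T_TR) (hTF : T_TF) : T_AP := by
  intro B _ N' N b σ hN hm hb
  refine ⟨?_, ?_, ?_, hN.full.1, ?_⟩
  · intro x hx x2 hx2
    have hp : Tm ZFm (fun _ v => ZFSet.pair (v 0) (v 1)) := Tm.pair (Tm.var 0) (Tm.var 1)
    refine ⟨?_, ?_, ?_⟩
    · obtain ⟨y, y2, h⟩ := ex2 hm hb hx hx2
      exact (tf2 hTF hN hm _ hp x y x2 y2 h).1
    · intro y y2
      by_cases h : σ x y ⊓ σ x2 y2 = ⊥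
      · rw [h]; exact bot_le
      · exact (tf2 hTF hN hm _ hp x y x2 y2 h).2
    · intro z hz
      obtain ⟨y, y2, rfl⟩ := (tr1 hTR hN hm _ _ hz).1 ⟨x, x2, rfl⟩
      exact ⟨y, y2, rfl, pair2 hTF hN hm x y x2 y2 hz⟩
  · intro z' y y2 hz
    obtain ⟨x, x2, rfl⟩ := (tr1 hTR hN hm _ _ hz).2 ⟨y, y2, rfl⟩
    have h1 := pair2 hTF hN hm x y x2 y2 hz
    have h2 : σ x y ⊓ σ x2 y2 ≠ ⊥ := ne_bot_of_le_ne_bot hz h1
    have h3 : σ x y ≠ ⊥ := ne_bot_of_le_ne_bot h2 inf_le_left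
    have h4 : σ x2 y2 ≠ ⊥ := ne_bot_of_le_ne_bot h2 inf_le_right
    exact ⟨x, (hm.dom x y h3).1, x2, (hm.dom x2 y2 h4).1, rfl, h1⟩
  · intro x hx x2 hx2
    have hp : Tm ZFm (fun _ v => v 0 ∩ v 1) := Tm.inter (Tm.var 0) (Tm.var 1)
    refine ⟨?_, ?_⟩
    · obtain ⟨y, y2, h⟩ := ex2 hm hb hx hx2
      exact (tf2 hTF hN hm _ hp x y x2 y2 h).1
    · intro y y2
      by_cases h : σ x y ⊓ σ x2 y2 = ⊥
      · rw [h]; exact bot_le
      · exact (tf2 hTF hN hm _ hp x y x2 y2 h).2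
  · have hw : (ω : Ordinal.{0}).toZFSet ∈ N' := hN.full.2.1
    obtain ⟨y, y2, h⟩ := ex2 hm hb hw hw
    have h3 : σ (ω : Ordinal.{0}).toZFSet y ≠ ⊥ := ne_bot_of_le_ne_bot h inf_le_left
    have h4 := tf1 hTF hN hm (fun _ _ => (∅ : V)) Tm.empty _ y h3
    refine ⟨h4.1, le_antisymm ?_ ?_⟩
    · rw [← hm.tot ∅ h4.1]
      exact le_iSup (fun y => σ ∅ y) ∅
    · conv_lhs => rw [← hm.tot _ hw]
      refine iSup_le fun y => ?_
      by_cases h5 : σ (ω : Ordinal.{0}).toZFSet y = ⊥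
      · rw [h5]; exact bot_le
      · exact (tf1 hTF hN hm (fun _ _ => (∅ : V)) Tm.empty _ y h5).2

end SF.H69
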