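import Pool.Agent.H9.SF.FD2

/-!
# Nice names
-/

set_option linter.unusedVariables false

open Ordinal
open scoped ZFSet

namespace SF.H69

open SF

/-- the value of the nice name -/
noncomputable def nv (c r n x : V) : V := c.sep fun p => fM r (ck c x) n p

theorem tm_nice (hFB : T_FB) (hFH : T_FH) :
    Tm ZFm (fun _ v => resS (v 0) fun x => nv (v 1) (v 2) (v 3) x) := by
  have h1 : Tm ZFm (fun _ v => ck (v 3) (v 1)) :=
    Tm.at2 (F := fun _ x y => ck x y) hFH.2.2.2.2.2.1 (Tm.var 3) (Tm.var 1)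
  have h2 : Dfb ZFm (fun _ w => fM (w 4) (ck (w 3) (w 1)) (w 5) (w 0)) :=
    hFB.2.comp (args [fun _ v => v 4, fun _ v => ck (v 3) (v 1), fun _ v => v 5, fun _ v => v 0])
      (tm_args _ (by
        intro a ha
        simp only [List.mem_cons, List.not_mem_nil, or_false] at ha
        rcases ha with rfl | rfl | rfl | rfl
        · exact Tm.var 4
        · exact h1
        · exact Tm.var 5
        · exact Tm.var 0))
  have h3 : Tm ZFm (fun _ u => nv (u 2) (u 3) (u 4) (u 0)) :=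
    Tm.sep (R := fun _ w => fM (w 4) (ck (w 3) (w 1)) (w 5) (w 0)) h2 (Tm.var 2)
  exact Tm.resS (g := fun _ u => nv (u 2) (u 3) (u 4) (u 0)) (Tm.var 0) h3

theorem fq (hFA : T_FA) (hFB : T_FB) (hFF : T_FF) (hFH : T_FH) : T_FQ := by
  intro M c r hM hc hr hpo n a hn ha
  obtain ⟨-, -, hmono, hdens⟩ := hFA c r hpo
  refine ⟨resS a fun x => nv c r n x, ?_, svl_resS _ _, dm_resS _ _, ?_, ?_⟩
  · have h1 := (tm_nice hFB hFH).1 M hM (cons a (cons c (cons r (fun _ => n))))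
      (In.cons (In.cons (In.cons (fun _ => hn) hr) hc) ha)
    exact h1
  · intro x hx
    rw [app_resS hx]
    refine ⟨fun p hp => (ZFSet.mem_sep.1 hp).1, ?_, ?_⟩
    · intro p hp q hq
      obtain ⟨q1, hq1, p1, -, he⟩ := hpo.sub _ hq
      obtain ⟨rfl, rfl⟩ := ZFSet.pair_inj.1 he
      exact ZFSet.mem_sep.2 ⟨hq1, hmono _ _ _ _ (ZFSet.mem_sep.1 hp).2 hq⟩
    · intro p hp h
      refine ZFSet.mem_sep.2 ⟨hp, hdens _ _ _ fun q hq => ?_⟩
      obtain ⟨q', hq', hq2⟩ := h q hq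
      exact ⟨q', hq2, (ZFSet.mem_sep.1 hq').2⟩
  · intro G hG x hx
    rw [app_resS hx]
    have hck : M (ck c x) := by
      have h1 := hFH.2.2.2.2.2.1.1 M hM (cons c (fun _ => x))
        (In.cons (fun _ => hM.trans _ ha x hx) hc)
      exact h1
    have h2 := (hFF M c r G hM hc hr hpo hG (ck c x) n hck hn).2
    rw [hFH.2.1 c G x hG.1.sub hG.1.ne] at h2
    rw [h2]
    constructor
    · rintro ⟨p, hp, h⟩
      exact ⟨p, hp, ZFSet.mem_sep.2 ⟨hG.1.sub hp, h⟩⟩
    · rintro ⟨p, hp, h⟩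
      exact ⟨p, hp, (ZFSet.mem_sep.1 h).2⟩

end SF.H69
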