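import Pool.Agent.H77.SF.KT

/-!
# The collapse is a level of the cumulative hierarchy
-/

open Ordinal Cardinal Order Set
open scoped ZFSet

namespace SF.H69

open SF

theorem kh (hLCO : T_LCO) : T_KH := by
  intro lam Y hlam hEl hne hT hR hU
  have hVt : (V_ lam).IsTransitive := ZFSet.isTransitive_vonNeumann lam
  have hVne : (V_ lam).Nonempty := by
    obtain ⟨y, hy⟩ := hne
    exact ⟨y, hEl.1 hy⟩
  obtain ⟨N', f, hN', hf, hY, hcard, hmem, hid⟩ := hLCO (V_ lam) Y hVt hVne hEl
  have hjY : ∀ u ∈ N', app f u ∈ Y := fun u hu => (hY _).2 ⟨u, hu, rfl⟩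
  have hinj : ∀ u ∈ N', ∀ v ∈ N', app f u = app f v → u = v := by
    intro u hu v hv huv
    have h1 := hf.el (.eq 0 1) (cons u (fun _ => v)) (by
      intro i
      cases i with
      | zero => exact hu
      | succ n => exact hv)
    exact h1.2 huv
  have hjm : ∀ u ∈ N', ∀ v ∈ N', (u ∈ v ↔ app f u ∈ app f v) := by
    intro u hu v hv
    rw [hmem v hv u]
    exact ⟨fun h => h.2, fun h => ⟨hu, h⟩⟩
  have hsub : ∀ u ∈ N', ∀ v ∈ N', (u ⊆ v ↔ app f u ⊆ app f v) := by
    intro u hu v hv
    have h1 := hf.el (.neg (.ex (.and (.mem 0 1) (.neg (.mem 0 2))))) (cons u (fun _ => v)) (by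
      intro i
      cases i with
      | zero => exact hu
      | succ n => exact hv)
    have h2 : u ⊆ v ↔ Sat (· ∈ N') (.neg (.ex (.and (.mem 0 1) (.neg (.mem 0 2)))))
        (cons u (fun _ => v)) := by
      constructor
      · rintro h ⟨x, -, hx1, hx2⟩
        exact hx2 (h hx1)
      · intro h x hx
        by_contra hcon
        exact h ⟨x, hN' u hu hx, hx, hcon⟩
    have h3 : app f u ⊆ app f v ↔ Sat (· ∈ V_ lam)
        (.neg (.ex (.and (.mem 0 1) (.neg (.mem 0 2)))))
        (fun i => app f (cons u (fun _ => v) i)) := by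
      constructor
      · rintro h ⟨x, -, hx1, hx2⟩
        exact hx2 (h hx1)
      · intro h x hx
        by_contra hcon
        exact h ⟨x, hVt _ (hEl.1 (hjY u hu)) hx, hx, hcon⟩
    rw [h2, h3]
    exact h1
  -- the collapse is closed under subsets
  have hsup : ∀ z ∈ N', ∀ y, y ⊆ z → y ∈ N' := by
    intro z hz y hyz
    obtain ⟨t, ht, htz, ht2⟩ := hT (app f z) (hjY z hz)
      ((app f z).sep fun w => ∃ v ∈ y, app f v = w) (fun w hw => (ZFSet.mem_sep.1 hw).1)
    obtain ⟨s, hs, rfl⟩ := (hY t).1 ht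
    have hsy : s = y := by
      ext v
      rw [hmem s hs v]
      constructor
      · rintro ⟨hv, hv2⟩
        rw [ht2 _ (hjY v hv), ZFSet.mem_sep] at hv2
        obtain ⟨-, v', hv', he⟩ := hv2
        have h1 : v' ∈ N' := hN' z hz (hyz hv')
        rw [← hinj v' h1 v hv he]
        exact hv'
      · intro hv
        have h1 : v ∈ N' := hN' z hz (hyz hv)
        refine ⟨h1, ?_⟩
        rw [ht2 _ (hjY v h1), ZFSet.mem_sep]
        exact ⟨(hjm v h1 z hz).1 (hyz hv), v, hv, rfl⟩
    rw [← hsy]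
    exact hs
  have hV : ∀ x : V, x ∈ N' → V_ x.rank ∈ N' ∧ app f (V_ x.rank) = V_ (app f x).rank := by
    intro x
    induction x using ZFSet.inductionOn with
    | _ x ih =>
      intro hx
      obtain ⟨z, hz, hz2⟩ := (hY _).1 (hR _ (hjY x hx)).1
      have hzx : z = V_ x.rank := by
        ext u
        constructor
        · intro hu
          have huN : u ∈ N' := hN' z hz hu
          have h1 : app f u ∈ V_ (app f x).rank := by
            rw [← hz2]
            exact (hjm u huN z hz).1 hu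
          obtain ⟨y1, hy1, hy2, hy3⟩ := hU _ (hjY u huN) _ (hjY x hx) h1
          obtain ⟨y, hy, rfl⟩ := (hY y1).1 hy1
          have hyx : y ∈ x := (hjm y hy x hx).2 hy2
          obtain ⟨h2, h3⟩ := ih y hyx hy
          rw [← h3, ← hsub u huN _ h2, ZFSet.subset_vonNeumann] at hy3
          rw [ZFSet.mem_vonNeumann]
          exact hy3.trans_lt (ZFSet.rank_lt_of_mem hyx)
        · intro hu
          rw [ZFSet.mem_vonNeumann, ZFSet.lt_rank_iff] at hu
          obtain ⟨y, hyx, huy⟩ := hu
          have hyN : y ∈ N' := hN' x hx hyx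
          obtain ⟨h2, h3⟩ := ih y hyx hyN
          have huy' : u ⊆ V_ y.rank := ZFSet.subset_vonNeumann.2 huy
          have huN : u ∈ N' := hsup _ h2 u huy'
          rw [hsub u huN _ h2, h3, ZFSet.subset_vonNeumann] at huy'
          rw [hjm u huN z hz, hz2, ZFSet.mem_vonNeumann]
          exact huy'.trans_lt (ZFSet.rank_lt_of_mem ((hjm y hyN x hx).1 hyx))
      rw [← hzx]
      exact ⟨hz, hz2⟩
  have hlev : N' = V_ N'.rank := by
    ext w
    rw [ZFSet.mem_vonNeumann]
    constructor
    · exact fun hw => ZFSet.rank_lt_of_mem hw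
    · intro hw
      obtain ⟨x, hx, hwx⟩ := ZFSet.lt_rank_iff.1 hw
      exact hsup _ (hV x hx).1 w (ZFSet.subset_vonNeumann.2 hwx)
  have hlim : IsSuccLimit N'.rank := by
    refine ⟨?_, isSuccPrelimit_of_succ_lt fun b hb => ?_⟩
    · rw [isMin_iff_eq_bot]
      intro h0
      obtain ⟨y, hy⟩ := hne
      obtain ⟨u, hu, -⟩ := (hY y).1 hy
      have h1 := ZFSet.rank_lt_of_mem hu
      rw [h0] at h1
      exact not_lt_bot h1
    · obtain ⟨x, hx, hbx⟩ := ZFSet.lt_rank_iff.1 hb
      obtain ⟨s, hs, hs2⟩ := (hY _).1 (hR _ (hjY x hx)).2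
      have hsx : s = {x} := by
        ext v
        rw [hmem s hs v, hs2, ZFSet.mem_singleton, ZFSet.mem_singleton]
        constructor
        · rintro ⟨h1, h2⟩
          exact hinj v h1 x hx h2
        · rintro rfl
          exact ⟨hx, rfl⟩
      have h1 := ZFSet.rank_lt_of_mem hs
      rw [hsx, ZFSet.rank_singleton] at h1
      exact (succ_le_succ hbx).trans_lt h1
  refine ⟨N'.rank, f, hlim, ?_, ?_, ?_, ?_⟩
  · rw [← hlev]; exact hf
  · intro y
    rw [← hlev]; exact hY y
  · rw [← hlev]; exact hcard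
  · intro t ht hty u hu
    rw [← hlev]; exact hid t ht hty u hu

end SF.H69
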