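import Pool.Agent.H45.SF.UT

/-!
# Existence of the algebra of the category forcing
-/

open Ordinal Cardinal Order Set
open scoped ZFSet

namespace SF.H69

open SF

/-- `s` is below the condition `(v, x)` -/
def Dn (v : Obj) (x : El v.A.B) (s : V) : Prop := ∃ hx : x ≠ ⊥, leU s (Cd.code ⟨v, x, hx⟩)

/-- the morphism of `v` into `c` -/
structure TrM (c : Cd) (v : Obj) (h : BMor v.A c.v.A) : Prop where
  len : v.α ≤ c.v.α
  good : Good h
  top : h ⊤ = c.x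
  gens : ∀ ξ < v.α, h (v.b ξ) = c.v.b ξ ⊓ c.x

theorem mb_mono (hMB : T_MB) {A C : BA} (h : BMor A C) {x y : El A.B} (hxy : x ≤ y) :
    h x ≤ h y := (hMB A.B C.B h.toMor).1 x y hxy

theorem mb_bot (hMB : T_MB) {A C : BA} (h : BMor A C) : h ⊥ = ⊥ := (hMB A.B C.B h.toMor).2.1

theorem Dn_iff (hMB : T_MB) (hUP : T_UP) (c : Cd) (v : Obj) (x : El v.A.B) :
    Dn v x c.code ↔ ∃ h : BMor v.A c.v.A, TrM c v h ∧ h x = c.x := by
  constructor
  · rintro ⟨hx, h1⟩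
    obtain ⟨h, hh⟩ := (hUP.1 c _).1 h1
    exact ⟨h, ⟨hh.len, hh.good, hh.top, hh.gens⟩, hh.img⟩
  · rintro ⟨h, hh, hx⟩
    have hne : x ≠ ⊥ := by
      rintro rfl
      rw [mb_bot hMB] at hx
      exact c.ne hx.symm
    exact ⟨hne, (hUP.1 c _).2 ⟨h, ⟨hh.len, hh.good, hh.top, hh.gens, hx⟩⟩⟩

theorem TrM_unique (hMB : T_MB) (hUA : T_UA) {c : Cd} {v : Obj} {h h' : BMor v.A c.v.A}
    (hh : TrM c v h) (hh' : TrM c v h') : h = h' := by
  have hne : (⊤ : El v.A.B) ≠ ⊥ := by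
    intro h1
    have h2 := hh.top
    rw [h1, mb_bot hMB] at h2
    exact c.ne h2.symm
  exact hUA.2.2.2.2.1 c v ⊤ ⊤ hne hne h h' ⟨hh.len, hh.good, hh.top, hh.gens, hh.top⟩
    ⟨hh'.len, hh'.good, hh'.top, hh'.gens, hh'.top⟩

theorem Dn_mono (hMB : T_MB) (hUP : T_UP) (c : Cd) (v : Obj) {x y : El v.A.B} (hxy : x ≤ y)
    (h : Dn v x c.code) : Dn v y c.code := by
  rw [Dn_iff hMB hUP] at h ⊢
  obtain ⟨k, hk, hx⟩ := h
  refine ⟨k, hk, le_antisymm ?_ ?_⟩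
  · rw [← hk.top]
    exact mb_mono hMB k le_top
  · rw [← hx]
    exact mb_mono hMB k hxy

theorem Dn_inf (hMB : T_MB) (hUP : T_UP) (hUA : T_UA) (c : Cd) (v : Obj) {x y : El v.A.B}
    (hx : Dn v x c.code) (hy : Dn v y c.code) : Dn v (x ⊓ y) c.code := by
  rw [Dn_iff hMB hUP] at hx hy ⊢
  obtain ⟨k, hk, hx⟩ := hx
  obtain ⟨k', hk', hy⟩ := hy
  obtain rfl := TrM_unique hMB hUA hk hk'
  refine ⟨k, hk, ?_⟩
  have h1 := k.inf x y
  rw [h1, hx, hy, inf_idem]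

/-- the value of the canonical morphism, as a set -/
noncomputable def fvV (κ : Ordinal.{0}) (v : Obj) (x : El v.A.B) : V :=
  (UU κ).sep fun u => ∀ r ∈ UU κ, leU r u → ∃ s ∈ UU κ, leU s r ∧ Dn v x s

theorem mem_fvV {κ : Ordinal.{0}} {v : Obj} {x : El v.A.B} {u : V} : u ∈ fvV κ v x ↔
    u ∈ UU κ ∧ ∀ r ∈ UU κ, leU r u → ∃ s ∈ UU κ, leU s r ∧ Dn v x s := by
  unfold fvV
  rw [ZFSet.mem_sep]

theorem fvV_cl (κ : Ordinal.{0}) (v : Obj) (x : El v.A.B) (hx : x ≠ ⊥) :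
    fvV κ v x = cl (UU κ) leU (Cd.code ⟨v, x, hx⟩) := by
  ext u
  rw [mem_fvV]
  unfold cl
  rw [ZFSet.mem_sep]
  refine and_congr_right fun _ => forall_congr' fun r => imp_congr_right fun _ =>
    imp_congr_right fun _ => exists_congr fun s => and_congr_right fun _ =>
    and_congr_right fun _ => ?_
  constructor
  · rintro ⟨_, h⟩; exact h
  · intro h; exact ⟨hx, h⟩

theorem leRefl (hUP : T_UP) (κ : Ordinal.{0}) : ∀ u ∈ UU κ, leU u u := (hUP.2.2.2 κ).1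

theorem leTrans (hUP : T_UP) {u v w : V} (h1 : leU u v) (h2 : leU v w) : leU u w :=
  hUP.2.2.1 u v w h1 h2

theorem cba (hUP : T_UP) (κ : Ordinal.{0}) : IsCBA (RO (UU κ) leU) :=
  isCBA_RO (leRefl hUP κ) fun _ _ _ _ _ _ h1 h2 => leTrans hUP h1 h2

theorem fvV_mem (hUP : T_UP) (κ : Ordinal.{0}) (v : Obj) (x : El v.A.B) :
    fvV κ v x ∈ RO (UU κ) leU := by
  rw [mem_RO]
  refine ⟨fun z hz => (mem_fvV.1 hz).1, ?_, ?_⟩
  · intro p hp q hq hqp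
    exact mem_fvV.2 ⟨hq, fun r hr hrq => (mem_fvV.1 hp).2 r hr (leTrans hUP hrq hqp)⟩
  · intro p hp h
    refine mem_fvV.2 ⟨hp, fun r hr hrp => ?_⟩
    obtain ⟨t, ht, htr⟩ := h r hr hrp
    obtain ⟨h1, h2⟩ := mem_fvV.1 ht
    obtain ⟨s, hs, hst, h3⟩ := h2 t h1 (leRefl hUP κ t h1)
    exact ⟨s, hs, leTrans hUP hst htr, h3⟩

theorem Dn_low (hUP : T_UP) {v : Obj} {x : El v.A.B} {s r : V} (h : Dn v x s) (hr : leU r s) :
    Dn v x r := by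
  obtain ⟨hx, h1⟩ := h
  exact ⟨hx, leTrans hUP hr h1⟩

theorem Dn_fvV (hUP : T_UP) {κ : Ordinal.{0}} {v : Obj} {x : El v.A.B} {s : V} (hs : s ∈ UU κ)
    (h : Dn v x s) : s ∈ fvV κ v x :=
  mem_fvV.2 ⟨hs, fun r hr hrs => ⟨r, hr, leRefl hUP κ r hr, Dn_low hUP h hrs⟩⟩

theorem mem_UU (hUP : T_UP) {κ : Ordinal.{0}} {u : V} (h : u ∈ UU κ) :
    ∃ c : Cd, u = c.code ∧ c.code ∈ V_ κ := ((hUP.2.2.2 κ).2 u).1 h

theorem code_UU (hUP : T_UP) {κ : Ordinal.{0}} {c : Cd} (h : c.code ∈ V_ κ) : c.code ∈ UU κ :=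
  ((hUP.2.2.2 κ).2 c.code).2 ⟨c, rfl, h⟩

theorem fvV_mono (hMB : T_MB) (hUP : T_UP) (κ : Ordinal.{0}) (v : Obj) {x y : El v.A.B}
    (hxy : x ≤ y) : fvV κ v x ⊆ fvV κ v y := by
  intro u hu
  obtain ⟨h1, h2⟩ := mem_fvV.1 hu
  refine mem_fvV.2 ⟨h1, fun r hr hru => ?_⟩
  obtain ⟨s, hs, hsr, h3⟩ := h2 r hr hru
  refine ⟨s, hs, hsr, ?_⟩
  obtain ⟨c, rfl, -⟩ := mem_UU hUP hs
  exact Dn_mono hMB hUP c v hxy h3

theorem fvV_inf (hMB : T_MB) (hUP : T_UP) (hUA : T_UA) (κ : Ordinal.{0}) (v : Obj)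
    (x y : El v.A.B) : fvV κ v (x ⊓ y) = fvV κ v x ∩ fvV κ v y := by
  refine subset_antisymm ?_ ?_
  · intro u hu
    exact ZFSet.mem_inter.2 ⟨fvV_mono hMB hUP κ v inf_le_left hu,
      fvV_mono hMB hUP κ v inf_le_right hu⟩
  · intro u hu
    obtain ⟨hx, hy⟩ := ZFSet.mem_inter.1 hu
    obtain ⟨h1, h2⟩ := mem_fvV.1 hx
    obtain ⟨-, h3⟩ := mem_fvV.1 hy
    refine mem_fvV.2 ⟨h1, fun r hr hru => ?_⟩
    obtain ⟨s, hs, hsr, h4⟩ := h2 r hr hru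
    obtain ⟨t, ht, hts, h5⟩ := h3 s hs (leTrans hUP hsr hru)
    refine ⟨t, ht, leTrans hUP hts hsr, ?_⟩
    have h6 := Dn_low hUP h4 hts
    obtain ⟨c, rfl, -⟩ := mem_UU hUP ht
    exact Dn_inf hMB hUP hUA c v h6 h5

/-- below the condition `(v, sSup S)` there is a condition below `(v, t)`, `t ∈ S` -/
theorem Dn_sup (hMB : T_MB) (hUP : T_UP) (hUA : T_UA) (c : Cd) (v : Obj) (S : Set (El v.A.B))
    (h : Dn v (sSup S) c.code) : ∃ t ∈ S, ∃ (y : El c.v.A.B) (hy : y ≠ ⊥),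
      leU (Cd.code ⟨c.v, y, hy⟩) c.code ∧ Dn v t (Cd.code ⟨c.v, y, hy⟩) := by
  rw [Dn_iff hMB hUP] at h
  obtain ⟨k, hk, hx⟩ := h
  have h1 : k (sSup S) = sSup (k '' S) := k.sup S
  rw [h1] at hx
  have h2 : ∃ t ∈ S, k t ≠ ⊥ := by
    by_contra hcon
    push Not at hcon
    apply c.ne
    rw [← hx, sSup_eq_bot]
    rintro _ ⟨t, ht, rfl⟩
    exact hcon t ht
  obtain ⟨t, ht, hne⟩ := h2
  have hle : k t ≤ c.x := by
    rw [← hk.top]
    exact mb_mono hMB k le_top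
  have ht0 : t ≠ ⊥ := by
    rintro rfl
    exact hne (mb_bot hMB k)
  refine ⟨t, ht, k t, hne, ?_, ?_⟩
  · rw [hUP.1]
    exact ⟨_, hUA.2.2.2.2.2.1 c c _ (hUA.2.2.1 c) (k t) hne hle⟩
  · refine ⟨ht0, ?_⟩
    rw [hUP.1]
    have hts : (⊤ : El v.A.B) ≠ ⊥ := by
      intro h3
      exact ht0 (le_bot_iff.1 (h3 ▸ le_top))
    exact ⟨_, hUA.2.2.2.2.2.2.1 c ⟨v, ⊤, hts⟩ k ⟨hk.len, hk.good, hk.top, hk.gens, hk.top⟩
      t ht0 hne⟩

open Classical in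
/-- the value of the canonical morphism -/
noncomputable def fv (κ : Ordinal.{0}) [IsCBA (RO (UU κ) leU)] (v : Obj) (x : El v.A.B) :
    El (RO (UU κ) leU) :=
  if v.code ∈ V_ κ then mkEl _ (fvV κ v x) else ⊥

theorem fv_pos (hUP : T_UP) (κ : Ordinal.{0}) [IsCBA (RO (UU κ) leU)] (v : Obj)
    (hv : v.code ∈ V_ κ) (x : El v.A.B) : (fv κ v x).val = fvV κ v x := by
  unfold fv mkEl
  rw [if_pos hv, dif_pos (fvV_mem hUP κ v x)]

theorem fv_neg (κ : Ordinal.{0}) [IsCBA (RO (UU κ) leU)] (v : Obj)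
    (hv : v.code ∉ V_ κ) (x : El v.A.B) : fv κ v x = ⊥ := by
  unfold fv
  rw [if_neg hv]

/-- the canonical morphism -/
theorem fv_inf (hMB : T_MB) (hUP : T_UP) (hUA : T_UA) (κ : Ordinal.{0})
    [IsCBA (RO (UU κ) leU)] (v : Obj) (x y : El v.A.B) :
    fv κ v (x ⊓ y) = fv κ v x ⊓ fv κ v y := by
  by_cases hv : v.code ∈ V_ κ
  · apply El.ext
    rw [El.inf_val, fv_pos hUP κ v hv, fv_pos hUP κ v hv, fv_pos hUP κ v hv,
      fvV_inf hMB hUP hUA]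
  · rw [fv_neg κ v hv, fv_neg κ v hv, fv_neg κ v hv, inf_idem]

theorem fv_sup (hMB : T_MB) (hUP : T_UP) (hUA : T_UA) (hRS : T_RS) (hUV : T_UV)
    (κ : Ordinal.{0}) (hκ : Inac κ) [IsCBA (RO (UU κ) leU)] (v : Obj) (S : Set (El v.A.B)) :
    fv κ v (sSup S) = sSup (fv κ v '' S) := by
  by_cases hv : v.code ∈ V_ κ
  · refine le_antisymm ?_ ?_
    · rw [sSup_image']
      obtain ⟨h1, -⟩ := hRS (UU κ) leU (leRefl hUP κ)
        fun _ _ _ _ _ _ h1 h2 => leTrans hUP h1 h2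
      rw [h1]
      intro p hp
      rw [fv_pos hUP κ v hv] at hp
      obtain ⟨hp1, hp2⟩ := mem_fvV.1 hp
      obtain ⟨s, hs, hsp, h3⟩ := hp2 p hp1 (leRefl hUP κ p hp1)
      obtain ⟨c, rfl, hc⟩ := mem_UU hUP hs
      obtain ⟨t, ht, y, hy, h4, h5⟩ := Dn_sup hMB hUP hUA c v S h3
      have hcv : c.v.code ∈ V_ κ := ((hUV κ hκ).2.2.2.2.2.2.2.2.2.1 c).1 hc
      have hq : Cd.code ⟨c.v, y, hy⟩ ∈ V_ κ :=
        ((hUV κ hκ).2.2.2.2.2.2.2.2.2.1 ⟨c.v, y, hy⟩).2 hcv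
      have hq2 := code_UU hUP hq
      refine ⟨_, hq2, leTrans hUP h4 hsp, ⟨t, ht⟩, ?_⟩
      rw [fv_pos hUP κ v hv]
      exact Dn_fvV hUP hq2 h5
    · refine sSup_le ?_
      rintro _ ⟨t, ht, rfl⟩
      rw [El.le_iff, fv_pos hUP κ v hv, fv_pos hUP κ v hv]
      exact fvV_mono hMB hUP κ v (le_sSup ht)
  · rw [fv_neg κ v hv]
    symm
    rw [sSup_eq_bot]
    rintro _ ⟨t, ht, rfl⟩
    exact fv_neg κ v hv t

theorem ub (hRS : T_RS) (hUA : T_UA) (hUO : T_UO) (hUP : T_UP) (hUV : T_UV) (hMB : T_MB) :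
    T_UB := by
  intro κ hκ
  haveI : IsCBA (RO (UU κ) leU) := cba hUP κ
  obtain ⟨h0, v0, hA, hα, hmin⟩ := hUO
  obtain ⟨A, α, b, out, good, gen⟩ := v0
  dsimp only at hA hα
  subst hA hα
  -- the least object
  let v0 : Obj := ⟨BA0, 0, b, out, good, gen⟩
  have hv0 : v0.code ∈ V_ κ := by
    have h1 := (hUV κ hκ).2.2.2.2.2.2.2.2.1 v0
    rw [h1]
    exact ⟨(hUV κ hκ).2.2.2.2.2.1, lt_of_le_of_lt (bot_le : (0 : Ordinal.{0}) ≤ _) hκ.big⟩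
  have hDn0 : ∀ (c : Cd), Dn v0 ⊤ c.code := by
    intro c
    obtain ⟨h, hh, -⟩ := hmin c h0
    exact ⟨h0, (hUP.1 c _).2 ⟨h, hh⟩⟩
  have hDn1 : ∀ (c : Cd) (x : El B0), Dn v0 x c.code ↔ c.v.A.g x ⊓ c.x = c.x := by
    intro c x
    obtain ⟨h, hh, hg⟩ := hmin c h0
    have hm : TrM c v0 h := ⟨hh.len, hh.good, hh.top, hh.gens⟩
    rw [Dn_iff hMB hUP]
    constructor
    · rintro ⟨k, hk, hx⟩
      obtain rfl := TrM_unique hMB hUA hk hm
      rw [← hg x x rfl]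
      exact hx
    · intro hx
      exact ⟨h, hm, (hg x x rfl).trans hx⟩
  let g : Mor B0 (RO (UU κ) leU) :=
    { f := fun x => fv κ v0 x
      inf := fun x y => fv_inf hMB hUP hUA κ v0 x y
      sup := fun S => fv_sup hMB hUP hUA hRS hUV κ hκ v0 S }
  have hunit : g ⊤ = ⊤ := by
    apply El.ext
    obtain ⟨-, -, -, h4, -⟩ := hRS (UU κ) leU (leRefl hUP κ)
        fun _ _ _ _ _ _ h1 h2 => leTrans hUP h1 h2
    rw [h4]
    have h5 : (g ⊤).val = fvV κ v0 ⊤ := fv_pos hUP κ v0 hv0 ⊤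
    rw [h5]
    refine subset_antisymm (fun u hu => (mem_fvV.1 hu).1) fun u hu => ?_
    obtain ⟨c, rfl, -⟩ := mem_UU hUP hu
    exact Dn_fvV hUP hu (hDn0 c)
  let Z : BA := { B := RO (UU κ) leU, g := g, unit := hunit }
  have hbase : ∀ (v : Obj) (x : El B0), fv κ v (v.A.g x) = g x ⊓ fv κ v ⊤ := by
    intro v x
    by_cases hv : v.code ∈ V_ κ
    · apply El.ext
      have h5 : (g x).val = fvV κ v0 x := fv_pos hUP κ v0 hv0 x
      rw [El.inf_val, fv_pos hUP κ v hv, fv_pos hUP κ v hv, h5]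
      have key : ∀ c : Cd, Dn v (v.A.g x) c.code ↔ Dn v0 x c.code ∧ Dn v ⊤ c.code := by
        intro c
        rw [hDn1 c x, Dn_iff hMB hUP, Dn_iff hMB hUP]
        constructor
        · rintro ⟨h, hh, hx⟩
          refine ⟨?_, h, hh, hh.top⟩
          have h6 := h.base x
          have h7 : h.f ⊤ = c.x := hh.top
          rw [h7] at h6
          exact h6.symm.trans hx
        · rintro ⟨hx, h, hh, -⟩
          refine ⟨h, hh, ?_⟩
          have h6 := h.base x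
          have h7 : h.f ⊤ = c.x := hh.top
          rw [h7] at h6
          exact h6.trans hx
      refine subset_antisymm ?_ ?_
      · intro u hu
        obtain ⟨h1, h2⟩ := mem_fvV.1 hu
        refine ZFSet.mem_inter.2 ⟨mem_fvV.2 ⟨h1, fun r hr hru => ?_⟩,
          mem_fvV.2 ⟨h1, fun r hr hru => ?_⟩⟩
        · obtain ⟨s, hs, hsr, h3⟩ := h2 r hr hru
          refine ⟨s, hs, hsr, ?_⟩
          obtain ⟨c, rfl, -⟩ := mem_UU hUP hs
          exact ((key c).1 h3).1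
        · obtain ⟨s, hs, hsr, h3⟩ := h2 r hr hru
          refine ⟨s, hs, hsr, ?_⟩
          obtain ⟨c, rfl, -⟩ := mem_UU hUP hs
          exact ((key c).1 h3).2
      · intro u hu
        obtain ⟨hx, hy⟩ := ZFSet.mem_inter.1 hu
        obtain ⟨h1, h2⟩ := mem_fvV.1 hx
        obtain ⟨-, h3⟩ := mem_fvV.1 hy
        refine mem_fvV.2 ⟨h1, fun r hr hru => ?_⟩
        obtain ⟨s, hs, hsr, h4⟩ := h2 r hr hru
        obtain ⟨t, ht, hts, h5⟩ := h3 s hs (leTrans hUP hsr hru)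
        refine ⟨t, ht, leTrans hUP hts hsr, ?_⟩
        have h6 := Dn_low hUP h4 hts
        obtain ⟨c, rfl, -⟩ := mem_UU hUP ht
        exact (key c).2 ⟨h6, h5⟩
    · rw [fv_neg κ v hv, fv_neg κ v hv, inf_bot_eq]
  let i : ∀ v : Obj, BMor v.A Z := fun v =>
    { f := fun x => fv κ v x
      inf := fun x y => fv_inf hMB hUP hUA κ v x y
      sup := fun S => fv_sup hMB hUP hUA hRS hUV κ hκ v S
      base := fun x => hbase v x }
  refine ⟨Z, i, rfl, ?_, ?_, ?_⟩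
  · intro c hc
    have hcv : c.v.code ∈ V_ κ := ((hUV κ hκ).2.2.2.2.2.2.2.2.2.1 c).1 hc
    have h1 : (i c.v c.x).val = fvV κ c.v c.x := fv_pos hUP κ c.v hcv c.x
    rw [h1, fvV_cl κ c.v c.x c.ne]
  · intro v hv x
    exact fv_neg κ v hv x
  · intro c hcA hcα x hx
    obtain ⟨v, x', ne⟩ := c
    dsimp only at hcA hcα hx
    have hvv : v = v0 := by
      apply hUA.1
      obtain ⟨A', α', b', out', good', gen'⟩ := v
      dsimp only at hcA hcα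
      subst hcA hcα
      show Obj.code _ = Obj.code _
      unfold Obj.code
      congr 2
      ext z
      rw [ZFSet.mem_range, ZFSet.mem_range]
      constructor
      · rintro ⟨ξ, -⟩
        exact absurd ξ.2 (not_lt_bot (α := Ordinal.{0}))
      · rintro ⟨ξ, -⟩
        exact absurd ξ.2 (not_lt_bot (α := Ordinal.{0}))
    subst hvv
    show fv κ v0 x = fv κ v0 x'
    congr 1
    exact El.ext hx

end SF.H69
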