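import Pool.Agent.H45.SF.UT

/-!
# Closure properties of `V_κ`
-/

open Ordinal Cardinal Order Set
open scoped ZFSet

namespace SF.H69

open SF

variable {κ : Ordinal.{0}}

theorem succ2 (h : Inac κ) {a : Ordinal.{0}} (ha : a < κ) : succ a < κ := h.lim.succ_lt ha

/-- boundedness of functions on elements of `V_κ` -/
theorem bd (h : Inac κ) {x : V} (hx : x ∈ V_ κ) (g : El x → Ordinal.{0}) (hg : ∀ i, g i < κ) :
    ∃ β < κ, ∀ i, g i < β := by
  have h1 := h.repl x hx (fun i => (g i).toZFSet) (fun i => by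
    rw [ZFSet.mem_vonNeumann, Ordinal.rank_toZFSet]; exact hg i)
  rw [ZFSet.mem_vonNeumann] at h1
  refine ⟨_, h1, fun i => ?_⟩
  have h2 : (g i).toZFSet ∈ ZFSet.range (fun i => (g i).toZFSet) := ZFSet.mem_range.2 ⟨i, rfl⟩
  have h3 := ZFSet.rank_lt_of_mem h2
  rwa [Ordinal.rank_toZFSet] at h3

theorem bd2 (h : Inac κ) (I : Type 1) (c : I → V) (g : I → Ordinal.{0})
    (hc : Function.Injective c) {x : V} (hx : x ∈ V_ κ) (hcx : ∀ i, c i ∈ x) (hg : ∀ i, g i < κ) :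
    ∃ β < κ, ∀ i, g i < β := by
  classical
  have h0 : 0 < κ := lt_of_le_of_lt (bot_le : (0 : Ordinal.{0}) ≤ _) h.big
  obtain ⟨β, hβ, h1⟩ := bd h hx (fun y => if h : ∃ i, c i = y.val then g h.choose else 0) (by
    intro y
    split_ifs with h2
    · exact hg _
    · exact h0)
  refine ⟨β, hβ, fun i => ?_⟩
  have h2 := h1 ⟨c i, hcx i⟩
  have h3 : ∃ j, c j = c i := ⟨i, rfl⟩
  rw [dif_pos h3] at h2
  rwa [hc h3.choose_spec] at h2

theorem rank_pair' (x y : V) : (ZFSet.pair x y).rank = succ (succ (max x.rank y.rank)) := by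
  unfold ZFSet.pair
  rw [ZFSet.rank_pair, ZFSet.rank_singleton, ZFSet.rank_pair]
  rcases le_total x.rank y.rank with h | h
  · rw [max_eq_right h, max_eq_right (succ_le_succ h), max_eq_right]
    exact succ_le_succ (succ_le_succ h)
  · rw [max_eq_left h, max_eq_left (succ_le_succ h), max_self]

theorem pair_mem (h : Inac κ) {x y : V} : ZFSet.pair x y ∈ V_ κ ↔ x ∈ V_ κ ∧ y ∈ V_ κ := by
  rw [ZFSet.mem_vonNeumann, ZFSet.mem_vonNeumann, ZFSet.mem_vonNeumann, rank_pair']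
  constructor
  · intro h1
    have h2 : max x.rank y.rank < κ :=
      ((le_succ _).trans (le_succ _)).trans_lt h1
    exact max_lt_iff.1 h2
  · intro h1
    exact succ2 h (succ2 h (max_lt_iff.2 h1))

theorem omega_mem (h : Inac κ) : (ω : Ordinal.{0}).toZFSet ∈ V_ κ := by
  rw [ZFSet.mem_vonNeumann, Ordinal.rank_toZFSet]
  exact (Ordinal.omega0_le_omega 1).trans_lt h.big

theorem omega_lt (h : Inac κ) : (ω : Ordinal.{0}) < κ := (Ordinal.omega0_le_omega 1).trans_lt h.big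

theorem add_nat (h : Inac κ) {ρ : Ordinal.{0}} (hρ : ρ < κ) (n : ℕ) : ρ + n < κ := by
  induction n with
  | zero => simpa using hρ
  | succ n ih =>
    have h1 := succ2 h ih
    rw [Order.succ_eq_add_one, add_assoc] at h1
    exact_mod_cast h1

theorem add_omega (h : Inac κ) {ρ : Ordinal.{0}} (hρ : ρ < κ) : ρ + ω < κ := by
  obtain ⟨β, hβ, h1⟩ := bd h (omega_mem h) (fun y => ρ + y.val.rank) (by
    intro y
    obtain ⟨a, ha, he⟩ := Ordinal.mem_toZFSet_iff.1 y.mem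
    obtain ⟨n, rfl⟩ := Ordinal.lt_omega0.1 ha
    rw [← he, Ordinal.rank_toZFSet]
    exact add_nat h hρ n)
  refine lt_of_le_of_lt ?_ hβ
  rw [Ordinal.add_le_iff_of_isSuccLimit Ordinal.isSuccLimit_omega0]
  intro c hc
  obtain ⟨n, rfl⟩ := Ordinal.lt_omega0.1 hc
  have h2 := h1 ⟨(n : Ordinal.{0}).toZFSet, Ordinal.mem_toZFSet_iff.2 ⟨_, hc, rfl⟩⟩
  dsimp only at h2
  rw [Ordinal.rank_toZFSet] at h2
  exact h2.le

theorem pow_mem (h : Inac κ) {x : V} (hx : x ∈ V_ κ) : ZFSet.powerset x ∈ V_ κ := by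
  rw [ZFSet.mem_vonNeumann] at hx ⊢
  rw [ZFSet.rank_powerset]
  exact succ2 h hx

theorem sub_mem {x y : V} (hx : x ∈ V_ κ) (hy : y ⊆ x) : y ∈ V_ κ :=
  ZFSet.mem_vonNeumann_of_subset hy hx

theorem mem_mem {x y : V} (hx : x ∈ V_ κ) (hy : y ∈ x) : y ∈ V_ κ :=
  ZFSet.isTransitive_vonNeumann κ x hx hy

theorem B0_mem (h : Inac κ) : B0 ∈ V_ κ := by
  have h1 : P0 ∈ V_ κ := by
    refine sub_mem (x := V_ (Ordinal.omega.{0} 1)) ?_ (fun z hz => (ZFSet.mem_sep.1 hz).1)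
    rw [ZFSet.vonNeumann_mem_vonNeumann_iff]
    exact h.big
  refine sub_mem (pow_mem h h1) (fun z hz => ?_)
  unfold B0 RO at hz
  exact (ZFSet.mem_sep.1 hz).1

theorem code_mem (h : Inac κ) (v : Obj) : v.code ∈ V_ κ ↔ v.A.B ∈ V_ κ ∧ v.α < κ := by
  unfold Obj.code
  rw [pair_mem h, pair_mem h]
  constructor
  · rintro ⟨h1, -, h2⟩
    refine ⟨h1, ?_⟩
    rw [ZFSet.mem_vonNeumann] at h2
    refine lt_of_le_of_lt (le_of_forall_lt fun ξ hξ => ?_) h2
    have h3 : ZFSet.pair ξ.toZFSet (v.b ξ).val ∈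
        (ZFSet.range fun ξ : Set.Iio v.α => ZFSet.pair ξ.1.toZFSet (v.b ξ.1).val : V) :=
      ZFSet.mem_range.2 ⟨⟨ξ, hξ⟩, rfl⟩
    refine lt_trans ?_ (ZFSet.rank_lt_of_mem h3)
    rw [rank_pair', Ordinal.rank_toZFSet]
    exact lt_succ_of_le ((le_max_left _ _).trans (le_succ _))
  · rintro ⟨h1, h2⟩
    refine ⟨h1, ?_, ?_⟩
    · refine h.repl B0 (B0_mem h) _ fun x => ?_
      rw [pair_mem h]
      exact ⟨mem_mem (B0_mem h) x.mem, mem_mem h1 (v.A.g x).mem⟩
    · have h3 : max v.α v.A.B.rank < κ := max_lt h2 (ZFSet.mem_vonNeumann.1 h1)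
      rw [ZFSet.mem_vonNeumann]
      refine lt_of_le_of_lt ?_ (succ2 h (succ2 h h3))
      rw [ZFSet.rank_le_iff]
      intro y hy
      obtain ⟨ξ, rfl⟩ := ZFSet.mem_range.1 hy
      rw [rank_pair', Ordinal.rank_toZFSet]
      refine succ_lt_succ (succ_lt_succ ?_)
      exact max_lt_max ξ.2 (ZFSet.rank_lt_of_mem (v.b ξ.1).mem)

theorem wo_mem (h : Inac κ) {x : V} (hx : x ∈ V_ κ) (hne : x ≠ ∅) : ∃ α < κ,
    ∃ e : Ordinal.{0} → V, (∀ ξ, e ξ ∈ x) ∧ ∀ y ∈ x, ∃ ξ < α, e ξ = y := by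
  classical
  obtain ⟨x0, hx0⟩ : ∃ x0, x0 ∈ x := by
    by_contra hcon
    push Not at hcon
    exact hne ((ZFSet.eq_empty x).2 hcon)
  let T : Type := Shrink.{0} (El x)
  let eq : El x ≃ T := equivShrink (El x)
  let r : T → T → Prop := WellOrderingRel
  have hlt : type r < κ := by
    by_contra hcon
    push Not at hcon
    have h0 : 0 < κ := lt_of_le_of_lt (bot_le : (0 : Ordinal.{0}) ≤ _) h.big
    obtain ⟨β, hβ, h1⟩ := bd h hx (fun y => if typein r (eq y) < κ then typein r (eq y) else 0) (by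
      intro y
      split_ifs with h2
      · exact h2
      · exact h0)
    obtain ⟨t, ht⟩ := typein_surj r (hβ.trans_le hcon)
    have h2 := h1 (eq.symm t)
    rw [Equiv.apply_symm_apply, ht, if_pos hβ] at h2
    exact lt_irrefl _ h2
  refine ⟨type r, hlt, fun ξ => if hξ : ξ < type r then (eq.symm (enum r ⟨ξ, hξ⟩)).val else x0,
    fun ξ => ?_, fun y hy => ?_⟩
  · dsimp only
    split_ifs with h2
    · exact (eq.symm _).mem
    · exact hx0
  · refine ⟨typein r (eq ⟨y, hy⟩), typein_lt_type r _, ?_⟩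
    dsimp only
    rw [dif_pos (typein_lt_type r _), enum_typein, Equiv.symm_apply_apply]

theorem uv : T_UV := by
  intro κ h
  refine ⟨fun ρ hρ => add_omega h hρ, fun x hx => pow_mem h hx, fun x hx y hy => sub_mem hx hy,
    fun x hx y hy => mem_mem hx hy, fun x hx y hy => (pair_mem h).2 ⟨hx, hy⟩, B0_mem h, ?_, ?_,
    fun v => code_mem h v, ?_, ?_, fun x hx hne => wo_mem h hx hne⟩
  · intro I c f hc x hx hcx hf
    obtain ⟨β, hβ, h1⟩ := bd2 h I c (fun i => (f i).rank) hc hx hcx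
      (fun i => ZFSet.mem_vonNeumann.1 (hf i))
    refine ⟨max (max ω x.rank) β, max_lt (max_lt (omega_lt h) (ZFSet.mem_vonNeumann.1 hx)) hβ,
      (le_max_left _ _).trans (le_max_left _ _), fun i => ?_, fun i => ?_⟩
    · rw [ZFSet.mem_vonNeumann]
      exact (ZFSet.rank_lt_of_mem (hcx i)).trans_le ((le_max_right _ _).trans (le_max_left _ _))
    · rw [ZFSet.mem_vonNeumann]
      exact (h1 i).trans_le (le_max_right _ _)
  · intro f hf
    obtain ⟨β, hβ, h1⟩ := bd2 h (ULift.{1} ℕ) (fun n => ((n.down : ℕ) : Ordinal.{0}).toZFSet)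
      (fun i => (f i.down).rank) (by
        intro a b hab
        have h2 := Ordinal.toZFSet_injective hab
        exact ULift.ext _ _ (Nat.cast_injective h2)) (omega_mem h) (by
        intro i
        exact Ordinal.mem_toZFSet_iff.2 ⟨_, Ordinal.natCast_lt_omega0 _, rfl⟩)
      (fun i => ZFSet.mem_vonNeumann.1 (hf i.down))
    refine ⟨max ω β, max_lt (omega_lt h) hβ, le_max_left _ _, fun n => ?_⟩
    rw [ZFSet.mem_vonNeumann]
    exact (h1 ⟨n⟩).trans_le (le_max_right _ _)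
  · intro c
    unfold Cd.code
    rw [pair_mem h]
    constructor
    · exact fun h1 => h1.1
    · intro h1
      exact ⟨h1, mem_mem ((code_mem h c.v).1 h1).1 c.x.mem⟩
  · intro I c f hc x hx hcx hf
    obtain ⟨β, hβ, h1⟩ := bd2 h I c f hc hx hcx hf
    exact ⟨β, hβ, fun i => (h1 i).le⟩

end SF.H69
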