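import Pool.Agent.H72.SF.VT

/-!
# `H_θ` is contained in a set
-/

open Ordinal Cardinal Order Set
open scoped ZFSet

namespace SF.H69

open SF

/-- all sets of rank at most `α` are elements of a set of the model -/
theorem vd_rank (hRK : Tm ZFm (fun _ v => (v 0).rank.toZFSet)) (W : V → Prop) (hW : ZFC W) :
    ∀ α : Ordinal.{0}, W α.toZFSet → ∃ y, W y ∧ ∀ z, W z → z.rank ≤ α → z ∈ y := by
  intro α
  induction α using WellFoundedLT.induction with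
  | _ α ih =>
    intro hα
    have hd : Dfb ZFm (fun M v => ∀ z, M z → (z.rank.toZFSet ⊆ v 1 → z ∈ v 0)) :=
      Dfb.all (R := fun _ v => (v 0).rank.toZFSet ⊆ v 2 → v 0 ∈ v 1)
        ((Dfb.subset hRK (Tm.var 2)).imp (Dfb.mem (Tm.var 0) (Tm.var 1)))
    obtain ⟨φ, hφ⟩ := hd
    have hIn : ∀ x y : V, W x → W y → In W (cons y (cons x fun _ => α.toZFSet)) := by
      intro x y hx hy
      exact In.cons (In.cons (fun _ => hα) hx) hy
    obtain ⟨b, hb, hb2⟩ := hW.coll φ (fun _ => α.toZFSet) α.toZFSet (fun _ => hα) hα (by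
      intro x hx
      have hxW : W x := hW.trans _ hα x hx
      obtain ⟨β, hβ, rfl⟩ := Ordinal.mem_toZFSet_iff.1 hx
      obtain ⟨y, hy, hy2⟩ := ih β hβ hxW
      refine ⟨y, hy, (hφ W hW.toZFm _ (hIn _ _ hxW hy)).2 ?_⟩
      intro z hz hz2
      exact hy2 z hz (Ordinal.toZFSet_subset_toZFSet_iff.1 hz2))
    obtain ⟨y, hy, hy2⟩ := hW.pow _ (hW.union _ hb)
    refine ⟨y, hy, fun z hz hzα => hy2 z hz fun w hw => ?_⟩
    have hwW : W w := hW.trans _ hz w hw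
    have hwα : w.rank < α := (ZFSet.rank_lt_of_mem hw).trans_le hzα
    have hwm : w.rank.toZFSet ∈ α.toZFSet := Ordinal.toZFSet_mem_toZFSet_iff.2 hwα
    obtain ⟨t, ht, ht2⟩ := hb2 _ hwm
    have htW : W t := hW.trans _ hb t ht
    have h1 := (hφ W hW.toZFm _ (hIn _ _ (hW.trans _ hα _ hwm) htW)).1 ht2 w hwW
      (fun _ h => h)
    exact ZFSet.mem_sUnion.2 ⟨t, ht, h1⟩

theorem vd_tm (hRK : Tm ZFm (fun _ v => (v 0).rank.toZFSet)) :
    Tm ZFm (fun _ v => resS (v 0) fun ξ =>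
      (⋃₀ (({(app (v 1) ξ).rank.toZFSet} : V) ∩ v 2) : ZFSet)) :=
  Tm.resS (g := fun _ w => (⋃₀ (({(app (w 2) (w 0)).rank.toZFSet} : V) ∩ w 3) : ZFSet))
    (Tm.var 0) (Tm.sUnion (Tm.inter (Tm.sing (Tm.at1 (F := fun _ x => x.rank.toZFSet) hRK
      (Tm.app (Tm.var 2) (Tm.var 0)))) (Tm.var 3)))

theorem vd_ite (x t : V) : (⋃₀ (({x} : V) ∩ t) : ZFSet) = open Classical in if x ∈ t then x else ∅ := by
  split_ifs with h
  · have h1 : ({x} : V) ∩ t = {x} := by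
      ext z
      rw [ZFSet.mem_inter, ZFSet.mem_singleton]
      constructor
      · exact fun h => h.1
      · rintro rfl
        exact ⟨rfl, h⟩
    rw [h1, ZFSet.sUnion_singleton]
  · have h1 : ({x} : V) ∩ t = ∅ := by
      rw [ZFSet.eq_empty]
      intro z hz
      rw [ZFSet.mem_inter, ZFSet.mem_singleton] at hz
      exact h (hz.1 ▸ hz.2)
    rw [h1, ZFSet.sUnion_empty]

/-- the ranks of the elements of a transitive set are an initial segment -/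
theorem vd_seg {t : V} (ht : t.IsTransitive) {γ : Ordinal.{0}} (h : γ < t.rank) :
    ∃ w ∈ t, w.rank = γ := by
  have hne : {α : Ordinal.{0} | γ ≤ α ∧ ∃ w ∈ t, w.rank = α}.Nonempty := by
    obtain ⟨w, hw, hw2⟩ := ZFSet.lt_rank_iff.1 h
    exact ⟨w.rank, hw2, w, hw, rfl⟩
  obtain ⟨h1, w, hw, hw2⟩ := csInf_mem hne
  set α := sInf {α : Ordinal.{0} | γ ≤ α ∧ ∃ w ∈ t, w.rank = α} with hα
  refine ⟨w, hw, ?_⟩
  by_contra hcon
  have h2 : γ < w.rank := lt_of_le_of_ne (hw2 ▸ h1) (Ne.symm hcon)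
  obtain ⟨u, hu, hu2⟩ := ZFSet.lt_rank_iff.1 h2
  have h3 : α ≤ u.rank := csInf_le' ⟨hu2, u, ht w hw hu, rfl⟩
  have h4 := ZFSet.rank_lt_of_mem hu
  rw [hw2] at h4
  exact absurd h3 (not_le.2 h4)

theorem vd (hFL : T_FL) : T_VD := by
  intro W hW θ hθ
  have hRK := hFL.1
  obtain ⟨h, hh, hh2⟩ := vd_rank hRK W hW θ hθ.2.1
  refine ⟨h, hh, fun x hx => hh2 x hx.1 ?_⟩
  obtain ⟨hxW, t, htW, ht, hxt, β, hβ, f, hf, hon⟩ := hx
  refine (ZFSet.rank_mono hxt).trans ?_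
  by_contra hcon
  push Not at hcon
  have hβW : W β.toZFSet :=
    hW.trans _ hθ.2.1 _ (Ordinal.toZFSet_mem_toZFSet_iff.2 hβ)
  have h0 : (∅ : V) ∈ θ.toZFSet := by
    rw [← Ordinal.toZFSet_zero, Ordinal.toZFSet_mem_toZFSet_iff]
    exact lt_of_lt_of_le Ordinal.omega0_pos hθ.1
  refine hθ.2.2 β hβ ⟨_, (vd_tm hRK).1 W hW.toZFm (cons β.toZFSet (cons f fun _ => θ.toZFSet))
    (In.cons (In.cons (fun _ => hθ.2.1) hf) hβW), ?_, ?_⟩
  · refine isFunc_resS _ _ _ fun ξ _ => ?_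
    rw [vd_ite]
    split_ifs with h1
    · exact h1
    · exact h0
  · intro g hg
    obtain ⟨γ, hγ, rfl⟩ := Ordinal.mem_toZFSet_iff.1 hg
    obtain ⟨w, hw, hw2⟩ := vd_seg ht (hγ.trans hcon)
    obtain ⟨ξ, hξ, hξ2⟩ := hon.2 w hw
    refine ⟨ξ, hξ, ?_⟩
    simp only [cons_zero, cons_succ]
    rw [pair_mem_resS]
    refine ⟨hξ, ?_⟩
    have h1 : app f ξ = w := app_eq (svl_of_isFunc hon.1) hξ2
    rw [h1, hw2, vd_ite, if_pos hg]

end SF.H69
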